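import Pool.Agent.W935.SK.Stm3
import Pool.Agent.H684R3.Smo.Asm

/-!
# Project SK: power saving for sequences with a prescribed zero
-/

set_option autoImplicit false

namespace Pool.Agent.W286.SK

open Polynomial Finset Pool.Agent.H884R2.Sko Pool.Agent.H692R2.USS Pool.Agent.W935.SK
open Pool.Agent.H684R3.Smo (T5 T8 bx)
open scoped Classical

theorem suppl (θ : ℝ) (hθ : 0 < θ) (K : Type) (hF : Field K) (hNF : @NumberField K hF)
    (y₀ p₀ : ℕ) (P : ℕ → Prop)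
    (hP : ∀ p : ℕ, p.Prime → p₀ ≤ p → @HasDegOne K hF hNF p → P p)
    (hsup : ∀ y : ℕ, y₀ ≤ y → (y : ℝ) ^ θ ≤
      (Nat.card {p : ℕ // (p.Prime ∧ @HasDegOne K hF hNF p) ∧ p ≤ y} : ℝ)) :
    ∃ y₁ : ℕ, ∀ y : ℕ, y₁ ≤ y →
      (y : ℝ) ^ (θ / 2) ≤ (Nat.card {p : ℕ // P p ∧ p ≤ y} : ℝ) := by
  have hev : ∀ᶠ y : ℕ in Filter.atTop, (p₀ : ℝ) + 1 ≤ (y : ℝ) ^ (θ / 2) := by
    have : Filter.Tendsto (fun y : ℕ => (y : ℝ) ^ (θ / 2)) Filter.atTop Filter.atTop :=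
      (tendsto_rpow_atTop (by positivity)).comp tendsto_natCast_atTop_atTop
    exact this.eventually_ge_atTop _
  obtain ⟨y₂, hy₂⟩ := Filter.eventually_atTop.1 hev
  refine ⟨max y₀ y₂, fun y hy => ?_⟩
  have h1 := hsup y ((le_max_left _ _).trans hy)
  have h2 := hy₂ y ((le_max_right _ _).trans hy)
  have hfinP : Finite {p : ℕ // P p ∧ p ≤ y} :=
    Set.Finite.subset (Set.finite_Iic y) (fun p hp => hp.2)
  have h3 : Nat.card {p : ℕ // (p.Prime ∧ @HasDegOne K hF hNF p) ∧ p ≤ y} ≤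
      Nat.card {p : ℕ // P p ∧ p ≤ y} + p₀ := by
    have e : Nat.card ({p : ℕ // P p ∧ p ≤ y} ⊕ Fin p₀) =
        Nat.card {p : ℕ // P p ∧ p ≤ y} + p₀ := by
      rw [Nat.card_sum, Nat.card_eq_fintype_card (α := Fin p₀), Fintype.card_fin]
    rw [← e]
    apply Nat.card_le_card_of_injective (fun p : {p : ℕ // (p.Prime ∧ @HasDegOne K hF hNF p) ∧
      p ≤ y} => if h : p.1 < p₀ then Sum.inr (⟨p.1, h⟩ : Fin p₀) else
        Sum.inl (⟨p.1, ⟨hP p.1 p.2.1.1 (not_lt.1 h) p.2.1.2, p.2.2⟩⟩ :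
          {p : ℕ // P p ∧ p ≤ y}))
    intro x x' h
    apply Subtype.ext
    simp only at h
    split_ifs at h with h4 h5 h5
    · simpa using h
    · simpa using h
  have h4 : ((Nat.card {p : ℕ // (p.Prime ∧ @HasDegOne K hF hNF p) ∧ p ≤ y} : ℕ) : ℝ) ≤
      (Nat.card {p : ℕ // P p ∧ p ≤ y} : ℝ) + p₀ := by exact_mod_cast h3
  have h5 : (y : ℝ) ^ θ = (y : ℝ) ^ (θ / 2) * (y : ℝ) ^ (θ / 2) := by
    rcases Nat.eq_zero_or_pos y with rfl | hy0
    · rw [Nat.cast_zero, Real.zero_rpow hθ.ne', Real.zero_rpow (by positivity)]; ring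
    · rw [← Real.rpow_add (by exact_mod_cast hy0)]; congr 1; ring
  have h6 : (0 : ℝ) ≤ (p₀ : ℝ) := by positivity
  nlinarith

theorem half_card (d' p : ℕ) (hp : p.Prime) (Ω : Finset (Fin (d' + 1) → ZMod p))
    (hΩ : 2 * Ω.card ≤ p ^ d') :
    (1 / 2 : ℝ) * (p : ℝ) ^ (Fintype.card (Fin d')) ≤
      (Nat.card {y : Fin d' → ZMod p // (Fin.cons 0 y : Fin (d' + 1) → ZMod p) ∉ Ω} : ℝ) := by
  haveI : NeZero p := ⟨hp.ne_zero⟩
  rw [Fintype.card_fin]
  have e1 : Nat.card {y : Fin d' → ZMod p // (Fin.cons 0 y : Fin (d' + 1) → ZMod p) ∉ Ω} =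
      ((Finset.univ : Finset (Fin d' → ZMod p)).filter
        (fun y => (Fin.cons 0 y : Fin (d' + 1) → ZMod p) ∉ Ω)).card :=
    Nat.subtype_card _ (by intro x; simp)
  have e2 : ((Finset.univ : Finset (Fin d' → ZMod p)).filter
      (fun y => (Fin.cons 0 y : Fin (d' + 1) → ZMod p) ∈ Ω)).card +
      ((Finset.univ : Finset (Fin d' → ZMod p)).filter
        (fun y => (Fin.cons 0 y : Fin (d' + 1) → ZMod p) ∉ Ω)).card = p ^ d' := by
    rw [Finset.card_filter_add_card_filter_not, Finset.card_univ, Fintype.card_fun,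
      ZMod.card, Fintype.card_fin]
  have e3 : ((Finset.univ : Finset (Fin d' → ZMod p)).filter
      (fun y => (Fin.cons 0 y : Fin (d' + 1) → ZMod p) ∈ Ω)).card ≤ Ω.card := by
    apply Finset.card_le_card_of_injOn (fun y => (Fin.cons 0 y : Fin (d' + 1) → ZMod p))
    · intro y hy
      exact (Finset.mem_filter.1 hy).2
    · intro y _ z _ hyz
      exact Fin.cons_right_injective (α := fun _ => ZMod p) 0 hyz
  rw [e1]
  have e4 : p ^ d' ≤ 2 * ((Finset.univ : Finset (Fin d' → ZMod p)).filter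
        (fun y => (Fin.cons 0 y : Fin (d' + 1) → ZMod p) ∉ Ω)).card := by omega
  have e5 : ((p : ℝ)) ^ d' ≤ 2 * ((((Finset.univ : Finset (Fin d' → ZMod p)).filter
        (fun y => (Fin.cons 0 y : Fin (d' + 1) → ZMod p) ∉ Ω)).card : ℕ) : ℝ) := by
    exact_mod_cast e4
  linarith

theorem q0 (h : S_PRIMEF) (h5 : Pool.Agent.H684R3.Smo.T5)
    (h8 : Pool.Agent.H684R3.Smo.T8) : S_Q0 := by
  intro d c hd hc0 hsq hnd
  obtain ⟨g, p₀, hg, hgood⟩ := h d c hd hc0 hsq hnd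
  obtain ⟨K, hF, hNF, hK⟩ := splitField_one g hg
  obtain ⟨θ, hθ, y₀, hsup⟩ := @h8 K hF hNF
  obtain ⟨d', rfl⟩ : ∃ d', d = d' + 1 := ⟨d - 1, by omega⟩
  let P : ℕ → Prop := fun p => (p.Prime ∧ p₀ ≤ p) ∧ (g.map (Int.castRingHom (ZMod p))).Splits
  have hsupP : ∃ y₁ : ℕ, ∀ y : ℕ, y₁ ≤ y →
      (y : ℝ) ^ (θ / 2) ≤ (Nat.card {p : ℕ // P p ∧ p ≤ y} : ℝ) :=
    suppl θ hθ K hF hNF y₀ p₀ P (fun p hp h0 h1 => ⟨⟨hp, h0⟩, hK p hp h1⟩) hsup
  have hch : ∀ p : ℕ, ∃ (b v : ℕ) (lam : ℤ) (Ω : Finset (Fin (d' + 1) → ZMod p)),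
      P p → (2 * b ≤ p ∧ 2 * Ω.card ≤ p ^ d' ∧
      ∀ a : Fin (d' + 1) → ℤ, seq c a 0 = 0 → (fun i => (a i : ZMod p)) ∉ Ω →
        Cert c a p b v lam) := by
    intro p
    by_cases hp : P p
    · obtain ⟨b, v, lam, Ω, h1, h2, h3⟩ := hgood p hp.1.1 hp.1.2 hp.2
      exact ⟨b, v, lam, Ω, fun _ => ⟨h1, h2, h3⟩⟩
    · exact ⟨0, 0, 0, ∅, fun hh => absurd hh hp⟩
  choose b v lam Ω hΩ using hch
  set A : ℝ := 4 / θ with hA
  have hA0 : 0 < A := by positivity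
  have hAθ : 1 < A * (θ / 2) := by
    have : A * (θ / 2) = 2 := by rw [hA]; field_simp; norm_num
    rw [this]; norm_num
  obtain ⟨δ, hδ, H₀, hmain⟩ := h5 (Fin d') P
    (fun p => {y : Fin d' → ZMod p | (Fin.cons 0 y : Fin (d' + 1) → ZMod p) ∉ Ω p})
    (1 / 2) (θ / 2) A (by norm_num) (by positivity) hA0 hAθ
    (fun p hp => ⟨hp.1.1, half_card d' p hp.1.1 (Ω p) (hΩ p hp).2.1⟩) hsupP
  refine ⟨A, δ, hA0, hδ, H₀, fun H hH => ?_⟩
  have h1 := hmain H hH 0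
  rw [Fintype.card_fin] at h1
  rw [Nat.add_sub_cancel]
  refine le_trans ?_ h1
  have e1 : Nat.card {w : Fin d' → ℤ // w ∈ bx (0 : Fin d' → ℤ) H ∧ ∀ p, P p →
      (p : ℝ) ≤ Real.log H ^ A → (fun i => (w i : ZMod p)) ∉
        (fun p => {y : Fin d' → ZMod p | (Fin.cons 0 y : Fin (d' + 1) → ZMod p) ∉ Ω p}) p} =
      ((bx (0 : Fin d' → ℤ) H).filter (fun w => ∀ p, P p →
      (p : ℝ) ≤ Real.log H ^ A → (fun i => (w i : ZMod p)) ∉
        (fun p => {y : Fin d' → ZMod p | (Fin.cons 0 y : Fin (d' + 1) → ZMod p) ∉ Ω p}) p)).card :=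
    Nat.subtype_card _ (by intro x; rw [Finset.mem_filter])
  rw [e1]
  norm_cast
  apply Finset.card_le_card_of_injOn (fun a => Fin.tail a)
  · intro a ha
    rw [Finset.mem_coe, Finset.mem_filter] at ha
    obtain ⟨ha, h0, hno⟩ := ha
    rw [mem_box] at ha
    have ha0 : a 0 = 0 := by
      have := seq_init c a (0 : Fin (d' + 1))
      rw [Fin.val_zero] at this
      rw [← this]; exact h0
    rw [Finset.mem_coe, Finset.mem_filter]
    constructor
    · unfold Pool.Agent.H684R3.Smo.bx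
      rw [Fintype.mem_piFinset]
      intro i
      have := ha i.succ
      rw [abs_le] at this
      simp only [Pi.zero_apply, sub_zero] at this
      rw [Finset.mem_Icc]
      simp only [Pi.zero_apply, Fin.tail]
      constructor <;> linarith [this.1, this.2]
    · intro p hp hpA hG
      apply hno
      refine ⟨p, b p, v p, lam p, hpA, (hΩ p hp).1, (hΩ p hp).2.2 a h0 ?_⟩
      have hG' : (Fin.cons 0 (fun i => ((Fin.tail a i : ℤ) : ZMod p)) : Fin (d' + 1) → ZMod p) ∉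
        Ω p := hG
      have e : (fun i => ((a i : ℤ) : ZMod p)) =
          (Fin.cons 0 (fun i => ((Fin.tail a i : ℤ) : ZMod p)) : Fin (d' + 1) → ZMod p) := by
        funext i
        refine Fin.cases ?_ (fun j => ?_) i
        · rw [Fin.cons_zero, ha0, Int.cast_zero]
        · rw [Fin.cons_succ]; rfl
      rw [e]
      exact hG'
  · intro a ha a' ha' hEq
    rw [Finset.mem_coe, Finset.mem_filter] at ha ha'
    have z : ∀ a : Fin (d' + 1) → ℤ, seq c a 0 = 0 → a 0 = 0 := by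
      intro a h0
      have := seq_init c a (0 : Fin (d' + 1))
      rw [Fin.val_zero] at this
      rw [← this]; exact h0
    funext i
    refine Fin.cases ?_ (fun j => ?_) i
    · rw [z a ha.2.1, z a' ha'.2.1]
    · exact congrFun hEq j

end Pool.Agent.W286.SK
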